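import Mathlib
import Pool.Agent.W757.Q2.St
import Pool.Agent.W409.RQAPX

set_option autoImplicit false

/-!
# Finiteness of the number of indifferent cycles of a rational map

From the solvability of the linearized equations for the cycles and multipliers (`StSURL2`) by a
dimension count.
-/

open Topology Filter Metric Set Polynomial MeasureTheory
open scoped OnePoint

namespace Pool.Agent.Q90.RB

open Pool.Agent.H790R3.RB (CV hF cr ND wr rt sp pr hc pol Sink Attd HypTop)
open Pool.Agent.W757.QR Pool.Agent.W757.RF Pool.Agent.W757.Q2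
open Pool.Agent.W409.RQAPX (Ind ind_finite ind_cyc ind_unit)

/-- the orbit of a point -/
def orb (f : ℂ → ℂ) (z : ℂ) : Set ℂ := {w | ∃ i : ℕ, f^[i] z = w}

theorem mem_orb (f : ℂ → ℂ) (z : ℂ) : z ∈ orb f z := ⟨0, rfl⟩

theorem orb_map {f : ℂ → ℂ} {z : ℂ} {p : ℕ} (hp : 0 < p) (h : f^[p] z = z) :
    orb f (f z) = orb f z := by
  apply Set.Subset.antisymm
  · rintro w ⟨i, rfl⟩
    exact ⟨i + 1, by rw [Function.iterate_succ_apply]⟩
  · rintro w ⟨i, rfl⟩
    rcases Nat.eq_zero_or_pos i with rfl | hi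
    · obtain ⟨q, rfl⟩ : ∃ q, p = q + 1 := ⟨p - 1, by omega⟩
      refine ⟨q, ?_⟩
      rw [Function.iterate_succ_apply] at h
      rw [h]
      rfl
    · obtain ⟨q, rfl⟩ : ∃ q, i = q + 1 := ⟨i - 1, by omega⟩
      exact ⟨q, by rw [Function.iterate_succ_apply]⟩

theorem orb_finite {f : ℂ → ℂ} {z : ℂ} {p : ℕ} (hp : 0 < p) (h : f^[p] z = z) :
    (orb f z).Finite := by
  refine (((Finset.range p).finite_toSet).image (fun j => f^[j] z)).subset ?_
  rintro _ ⟨j, rfl⟩
  refine ⟨j % p, ?_, ?_⟩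
  · rw [Finset.mem_coe, Finset.mem_range]
    exact Nat.mod_lt _ hp
  · exact Function.IsPeriodicPt.iterate_mod_apply h j

open Classical in
/-- extension by zero -/
noncomputable def ex {Z : Finset ℂ} (v : Z → ℂ) (z : ℂ) : ℂ := if h : z ∈ Z then v ⟨z, h⟩ else 0

theorem ex_add {Z : Finset ℂ} (v w : Z → ℂ) (z : ℂ) : ex (v + w) z = ex v z + ex w z := by
  unfold ex
  split_ifs <;> simp

theorem ex_smul {Z : Finset ℂ} (c : ℂ) (v : Z → ℂ) (z : ℂ) : ex (c • v) z = c * ex v z := by
  unfold ex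
  split_ifs <;> simp

theorem ex_of {Z : Finset ℂ} (u : ℂ → ℂ) {z : ℂ} (hz : z ∈ Z) : ex (fun w : Z => u w) z = u z := by
  unfold ex
  rw [dif_pos hz]

theorem hv_add (Q H H' : ℂ[X]) (z : ℂ) : hv Q (H + H') z = hv Q H z + hv Q H' z := by
  simp only [hv, eval_add]
  ring

theorem hv_smul (Q H : ℂ[X]) (c z : ℂ) : hv Q (c • H) z = c * hv Q H z := by
  simp only [hv, eval_smul, smul_eq_mul]
  ring

theorem hd_add (Q H H' : ℂ[X]) (z : ℂ) : hd Q (H + H') z = hd Q H z + hd Q H' z := by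
  simp only [hd, eval_add, derivative_add]
  ring

theorem hd_smul (Q H : ℂ[X]) (c z : ℂ) : hd Q (c • H) z = c * hd Q H z := by
  simp only [hd, derivative_smul, eval_smul, smul_eq_mul]
  ring

/-- the linearized equations -/
noncomputable def Phi (P Q : ℂ[X]) (Z : Finset ℂ) (T : Finset (Set ℂ)) (r : T → ℂ) (n : ℕ) :
    (degreeLT ℂ n × (Z → ℂ)) →ₗ[ℂ] ((Z → ℂ) × (T → ℂ)) where
  toFun q := (fun z => ex q.2 (fr P Q z) - d1 P Q z * ex q.2 z - hv Q (q.1 : ℂ[X]) z,
    fun o => ∑ i ∈ Finset.range (Function.minimalPeriod (fr P Q) (r o)),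
      (hd Q (q.1 : ℂ[X]) ((fr P Q)^[i] (r o)) +
        d2 P Q ((fr P Q)^[i] (r o)) * ex q.2 ((fr P Q)^[i] (r o))) /
        d1 P Q ((fr P Q)^[i] (r o)))
  map_add' q q' := by
    refine Prod.ext ?_ ?_
    · funext z
      simp only [Prod.fst_add, Prod.snd_add, Submodule.coe_add, ex_add, hv_add, Pi.add_apply]
      ring
    · funext o
      simp only [Prod.fst_add, Prod.snd_add, Submodule.coe_add, ex_add, hd_add, Pi.add_apply]
      rw [← Finset.sum_add_distrib]
      refine Finset.sum_congr rfl fun i _ => ?_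
      ring
  map_smul' c q := by
    refine Prod.ext ?_ ?_
    · funext z
      simp only [Prod.smul_fst, Prod.smul_snd, Submodule.coe_smul, ex_smul, hv_smul, Pi.smul_apply,
        RingHom.id_apply, smul_eq_mul]
      ring
    · funext o
      simp only [Prod.smul_fst, Prod.smul_snd, Submodule.coe_smul, ex_smul, hd_smul, Pi.smul_apply,
        RingHom.id_apply, smul_eq_mul]
      rw [Finset.mul_sum]
      refine Finset.sum_congr rfl fun i _ => ?_
      ring

theorem card_le (hS : StSURL2) {d : ℕ} {P Q : ℂ[X]} {Z : Finset ℂ} (hR : RM d P Q)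
    (hC : Cyc P Q Z) (hG : Ginf d P Q) (hI : Indf P Q Z)
    (hper : ∀ z ∈ Z, ∃ p : ℕ, 0 < p ∧ (fr P Q)^[p] z = z) (T : Finset (Set ℂ))
    (hT : ∀ o ∈ T, ∃ z ∈ Z, orb (fr P Q) z = o) : T.card ≤ 2 * d + 1 := by
  classical
  have h1 : ∀ o : T, ∃ z, z ∈ Z ∧ orb (fr P Q) z = o := fun o => by
    obtain ⟨z, hz, ho⟩ := hT o o.2
    exact ⟨z, hz, ho⟩
  choose r hrZ hro using h1
  have hsur : Function.Surjective (Phi P Q Z T r (2 * d + 1)) := by
    rintro ⟨e, k⟩
    obtain ⟨H, u, hH, h2, h3⟩ := hS d P Q Z hR hC hG hI (ex e)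
      (fun w => if h : orb (fr P Q) w ∈ T then k ⟨orb (fr P Q) w, h⟩ else 0) (by
        intro z hz
        obtain ⟨p, hp, hpz⟩ := hper z hz
        simp only [orb_map hp hpz])
    refine ⟨(⟨H, ?_⟩, fun z => u z), ?_⟩
    · rw [mem_degreeLT]
      refine lt_of_le_of_lt degree_le_natDegree ?_
      exact_mod_cast Nat.lt_succ_of_le hH
    · have hit : ∀ z ∈ Z, ∀ i : ℕ, (fr P Q)^[i] z ∈ Z := by
        intro z hz i
        induction i with
        | zero => exact hz
        | succ i ih =>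
          rw [Function.iterate_succ_apply']
          exact (hC.1 _ ih).2.2
      refine Prod.ext ?_ ?_
      · funext z
        have h4 := h2 z z.2
        simp only [Phi, LinearMap.coe_mk, AddHom.coe_mk]
        rw [ex_of u (hC.1 z z.2).2.2, ex_of u z.2, h4]
        unfold ex
        rw [dif_pos z.2]
      · funext o
        have h4 := h3 (r o) (hrZ o)
        simp only [Phi, LinearMap.coe_mk, AddHom.coe_mk]
        have h5 : orb (fr P Q) (r o) ∈ T := by rw [hro o]; exact o.2
        rw [dif_pos h5] at h4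
        have h6 : (⟨orb (fr P Q) (r o), h5⟩ : T) = o := Subtype.ext (hro o)
        rw [h6] at h4
        rw [← h4]
        refine Finset.sum_congr rfl fun i _ => ?_
        rw [ex_of u (hit _ (hrZ o) i)]
  have hfin : Module.Finite ℂ (degreeLT ℂ (2 * d + 1)) :=
    Module.Finite.equiv (degreeLTEquiv ℂ (2 * d + 1)).symm
  have h7 := LinearMap.finrank_le_finrank_of_surjective hsur
  rw [Module.finrank_prod, Module.finrank_prod, (degreeLTEquiv ℂ (2 * d + 1)).finrank_eq,
    Module.finrank_fintype_fun_eq_card, Module.finrank_fintype_fun_eq_card,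
    Module.finrank_fintype_fun_eq_card, Fintype.card_fin, Fintype.card_coe, Fintype.card_coe] at h7
  omega

/-- all indifferent periodic points have bounded period -/
theorem ind_bounded (hS : StSURL2) {d : ℕ} (x : CV d) (hd : 2 ≤ d) (hx : ND x)
    (hR : RM d (nu x) (de x)) (hG : Ginf d (nu x) (de x)) : ∃ J : ℕ, ∀ j, Ind x j ⊆ Ind x J := by
  classical
  have hmono : ∀ {i j : ℕ}, i ≤ j → Ind x i ⊆ Ind x j := by
    rintro i j hij a ⟨p, hp, hpi, h⟩
    exact ⟨p, hp, hpi.trans hij, h⟩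
  have key : (⋃ j, Ind x j).Finite := by
    refine Set.Finite.of_finite_fibers (orb (fx x)) ?_ ?_
    · by_contra hinf
      obtain ⟨T, hT, hTc⟩ := (show ((orb (fx x)) '' ⋃ j, Ind x j).Infinite from
        hinf).exists_subset_card_eq (2 * d + 2)
      -- all the orbits of `T` are in one of the sets
      have h1 : ∀ o : T, ∃ j z, z ∈ Ind x j ∧ orb (fx x) z = o := by
        intro o
        obtain ⟨z, hz, ho⟩ := hT o.2
        obtain ⟨j, hj⟩ := mem_iUnion.1 hz
        exact ⟨j, z, hj, ho⟩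
      choose j z hz ho using h1
      set J := Finset.univ.sup j with hJ
      have h2 := card_le hS hR (ind_cyc x hd hx J) hG (ind_unit x hd hx J) (by
        intro w hw
        rw [Set.Finite.mem_toFinset] at hw
        obtain ⟨p, hp, -, -, hpw, -⟩ := hw
        exact ⟨p, hp, hpw⟩) T (by
        intro o ho'
        refine ⟨z ⟨o, ho'⟩, ?_, ho ⟨o, ho'⟩⟩
        rw [Set.Finite.mem_toFinset]
        exact hmono (Finset.le_sup (f := j) (Finset.mem_univ _)) (hz ⟨o, ho'⟩))
      omega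
    · rintro o ⟨z, hz, rfl⟩
      obtain ⟨j, p, hp, -, -, hpz, -⟩ := mem_iUnion.1 hz
      refine (orb_finite hp hpz).subset ?_
      rintro w ⟨-, hw⟩
      have : orb (fx x) w = orb (fx x) z := hw
      rw [← this]
      exact mem_orb _ w
  have h3 : ∀ z : (⋃ j, Ind x j), ∃ j, (z : ℂ) ∈ Ind x j := fun z => mem_iUnion.1 z.2
  choose j hj using h3
  have : Fintype (⋃ j, Ind x j) := key.fintype
  refine ⟨Finset.univ.sup j, fun i z hz => ?_⟩
  have hz' : z ∈ ⋃ j, Ind x j := mem_iUnion.2 ⟨i, hz⟩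
  exact hmono (Finset.le_sup (f := j) (Finset.mem_univ ⟨z, hz'⟩)) (hj ⟨z, hz'⟩)

end Pool.Agent.Q90.RB
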