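import Mathlib
import Pool.Agent.Q90.RB.Cnt
import Pool.Agent.W342.RE.PM
import Pool.Agent.W462.REQ2APX

set_option autoImplicit false

/-!
# Perturbations attracting all basins of indifferent cycles at once
-/

open Topology Filter Metric Set Polynomial MeasureTheory
open scoped OnePoint

namespace Pool.Agent.Q90.RB

open Pool.Agent.H790R3.RB (CV hF cr ND wr rt sp pr hc pol Sink Attd HypTop)
open Pool.Agent.W757.QR Pool.Agent.W757.RF Pool.Agent.W757.Q2
open Pool.Agent.W29.RQSNK (sp_iter sp_fx sp_inf fin_of)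
open Pool.Agent.W409.RQAPX (Ind ind_finite ind_cyc ind_unit)
open Pool.Agent.W342.RE.PTW
open Pool.Agent.W462.REQ2APX (nu0 sarea_eq nu0_fin)

theorem not_JS {f : OnePoint ℂ → OnePoint ℂ} {z : ℂ} (h : z ∉ JS f) :
    Attd f (z : OnePoint ℂ) ∨ ∃ a, ParaA f a (z : OnePoint ℂ) ∨ SiegA f a (z : OnePoint ℂ) := by
  by_cases h1 : Attd f (z : OnePoint ℂ)
  · exact Or.inl h1
  by_cases h2 : ParaB f (z : OnePoint ℂ)
  · obtain ⟨p, a, hp, hm, hlim, hne⟩ := h2
    exact Or.inr ⟨a, Or.inl ⟨p, hp, hm, hlim, hne⟩⟩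
  by_cases h3 : SiegB f (z : OnePoint ℂ)
  · obtain ⟨n, p, r, ρ, h, hp, hr, hρ, hirr, hh, hi, hc, hn⟩ := h3
    exact Or.inr ⟨h 0, Or.inr ⟨n, p, r, ρ, h, hp, hr, hρ, hirr, hh, hi, hc, hn, rfl⟩⟩
  exact absurd ⟨h1, h2, h3⟩ h

/-- **All basins of attracting and indifferent cycles at once.** -/
theorem all_basins (hSURL : StSURL2) (d : ℕ) (x : CV d) (hd : 2 ≤ d) (hx : ND x) :
    ∃ (X : ℕ → CV d) (E : Set ℂ), Tendsto X atTop (𝓝 x) ∧ (∀ n, ND (X n)) ∧ E.Countable ∧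
      ∀ z : ℂ, z ∉ E → z ∉ JS (sp x) → ∀ᶠ n in atTop, Attd (sp (X n)) (z : OnePoint ℂ) := by
  classical
  by_cases hex : ∃ a z, ParaA (sp x) a z ∨ SiegA (sp x) a z
  swap
  · refine ⟨fun _ => x, ∅, tendsto_const_nhds, fun _ => hx, Set.countable_empty, ?_⟩
    intro z _ hz
    rcases not_JS hz with H | ⟨a, H⟩
    · exact Eventually.of_forall fun _ => H
    · exact absurd ⟨a, z, H⟩ hex
  · obtain ⟨a₀, z₀, ha₀⟩ := hex
    have hcen : ∀ a, (∃ z, ParaA (sp x) a z ∨ SiegA (sp x) a z) →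
        ∃ (p : ℕ) (ρ : ℂ), 0 < p ∧ ‖ρ‖ = 1 ∧ HasMult (sp x) p a ρ := by
      rintro a ⟨z, hz⟩
      exact cen_mult hz
    have hS : {q | SPre (sp x) q}.Infinite := by
      obtain ⟨p, ρ, hp, hρ, hm⟩ := hcen a₀ ⟨z₀, ha₀⟩
      exact spre_inf_of hd hx hp hρ hm
    obtain ⟨a, b, c, e, h, x₁, T, hdet, hh, hx₁, hs, hG, -, hTc, hTx, hT, hmem⟩ :=
      Pool.Agent.W440.RE.GENM2.genm_mem d x ∅ _ hS hd hx
    have hs' : ∀ z, sp x₁ (h z) = h (sp x z) := fun z => (hs z).symm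
    have hs'' : ∀ z, sp x (h.symm z) = h.symm (sp x₁ z) := by
      intro z
      apply h.injective
      rw [← hs', h.apply_symm_apply, h.apply_symm_apply]
    have hinf : SPre (sp x₁) ∞ := spre_semi h.symm.toEquiv (g := sp x) hs'' hmem
    obtain ⟨J, hJ⟩ := ind_bounded hSURL x₁ hd hx₁ (rm_of hd hx₁) hG
    set Z : Finset ℂ := (ind_finite x₁ hd hx₁ J).toFinset with hZ
    have hZm : ∀ a, (∃ z, ParaA (sp x) a z ∨ SiegA (sp x) a z) → toC (h a) ∈ Z := by
      intro a ha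
      obtain ⟨p, ρ, hp, hρ, hm⟩ := hcen a ha
      rw [hZ, Set.Finite.mem_toFinset]
      exact hJ p (mem_ind hinf hp le_rfl hρ (hasMult_transport hdet hh hs' hm))
    have hcyc : Cyc (nu x₁) (de x₁) Z := ind_cyc x₁ hd hx₁ J
    have hunit : Indf (nu x₁) (de x₁) Z := ind_unit x₁ hd hx₁ J
    obtain ⟨t₀, C₀, X, y, kk, ht₀, hC₀, hkk, hX⟩ := Pool.Agent.W40.RQCURVE.task
      Pool.Agent.W29.RQSYL.task d x₁ Z hd hx₁ hcyc hunit
      (hSURL d (nu x₁) (de x₁) Z (rm_of hd hx₁) hcyc hG hunit)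
    have hloc := local_good x₁ hd hx₁ Z hcyc t₀ C₀ X y kk ht₀ hC₀ hkk hX
    set tn : ℕ → ℝ := fun n => t₀ / (n + 1) with htn
    have htn0 : ∀ n, 0 < tn n := fun n => by
      simp only [htn]
      positivity
    have htn1 : ∀ n, tn n ≤ t₀ := fun n => by
      simp only [htn]
      apply div_le_self ht₀.le
      have : (0 : ℝ) ≤ n := Nat.cast_nonneg n
      linarith
    have htlim : Tendsto tn atTop (𝓝 0) := tendsto_const_div_atTop_nhds_zero_nat t₀ |>.comp
      (tendsto_add_atTop_nat 1) |>.congr fun n => by simp [htn]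
    refine ⟨fun n => T (X (tn n)), {z : ℂ | ∃ n, (sp x)^[n] (z : OnePoint ℂ) = h.symm ∞}, ?_, ?_,
      ?_, ?_⟩
    · have h1 : Tendsto (fun n => X (tn n)) atTop (𝓝 x₁) := by
        rw [tendsto_iff_norm_sub_tendsto_zero]
        have h2 : Tendsto (fun n => C₀ * tn n) atTop (𝓝 0) := by
          have := htlim.const_mul C₀
          rwa [mul_zero] at this
        exact squeeze_zero (fun n => norm_nonneg _)
          (fun n => (hX (tn n) (htn0 n).le (htn1 n)).2.1) h2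
      have h2 := (hTc.tendsto x₁).comp h1
      rw [hTx] at h2
      exact h2
    · intro n
      exact (hT (X (tn n)) (hX (tn n) (htn0 n).le (htn1 n)).1).1
    · have h1 : {z : ℂ | ∃ n, (sp x)^[n] (z : OnePoint ℂ) = h.symm ∞} =
          ⋃ n : ℕ, (fun z : ℂ => (z : OnePoint ℂ)) ⁻¹' {w | (sp x)^[n] w = h.symm ∞} := by
        ext z
        simp
      rw [h1]
      exact Set.countable_iUnion fun n =>
        (pre_countable hd hx (h.symm ∞) n).preimage OnePoint.coe_injective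
    · intro z hz hJS
      have H := not_JS hJS
      have hzn : ∀ n, (sp x₁)^[n] (h z) ≠ ∞ := by
        intro n hn
        apply hz
        refine ⟨n, ?_⟩
        rw [Pool.Agent.H790R3.RB.ALL.iter h hs'] at hn
        rw [← hn, h.symm_apply_apply]
      have hco : ((toC (h z) : ℂ) : OnePoint ℂ) = h z := coe_toC (hzn 0)
      have hu : toC (h z) ∈ GG' x₁ Z := by
        rcases H with H | ⟨a', H⟩
        · refine Or.inl ?_
          rw [hco]
          exact Pool.Agent.H790R3.RB.ALL.attd h hs' H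
        · apply mem_gg hinf (hZm a' ⟨z, H⟩)
          · rw [hco]; exact hzn
          · rw [hco]
            rcases H with H | H
            · exact Or.inl (paraA_transport hdet hh hs' H)
            · exact Or.inr (siegA_transport hdet hh hs' H)
      obtain ⟨t₁, ht₁, H₁⟩ := hloc _ hu
      filter_upwards [htlim.eventually (gt_mem_nhds ht₁)] with n hn
      have h1 := H₁ (tn n) (htn0 n) hn
      rw [hco] at h1
      obtain ⟨-, hTs⟩ := hT (X (tn n)) (hX (tn n) (htn0 n).le (htn1 n)).1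
      have hTs' : ∀ w, sp (T (X (tn n))) (h.symm w) = h.symm (sp (X (tn n)) w) := by
        intro w
        apply h.injective
        rw [hTs, h.apply_symm_apply, h.apply_symm_apply]
      have h2 := Pool.Agent.H790R3.RB.ALL.attd h.symm hTs' h1
      rwa [h.symm_apply_apply] at h2

/-- the area of the points which are not attracted -/
theorem area_all {d : ℕ} (hd : 2 ≤ d) {x : CV d} {X : ℕ → CV d} (hX : ∀ n, ND (X n)) {E : Set ℂ}
    (hE : E.Countable) (h : ∀ z : ℂ, z ∉ E → z ∉ JS (sp x) →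
      ∀ᶠ n in atTop, Attd (sp (X n)) (z : OnePoint ℂ)) (ε : ℝ) (hε : 0 < ε) :
    ∀ᶠ n in atTop, sarea {z : ℂ | ¬ Attd (sp (X n)) (z : OnePoint ℂ)} ≤
      sarea (JS (sp x)) + ENNReal.ofReal ε := by
  set η : ENNReal := ENNReal.ofReal ε with hη
  have hη0 : 0 < η := ENNReal.ofReal_pos.2 hε
  have hfin : ∀ A : Set ℂ, nu0 A ≠ ⊤ := fun A =>
    ((measure_mono (subset_univ A)).trans_lt nu0_fin).ne
  set A : ℕ → Set ℂ := fun n => {z : ℂ | Attd (sp (X n)) (z : OnePoint ℂ)} with hA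
  set B : ℕ → Set ℂ := fun N => ⋂ n ∈ Ici N, A n with hB
  have hBmono : Monotone B := by
    intro i j hij z hz
    rw [hB, mem_iInter₂] at hz ⊢
    intro n hn
    exact hz n (le_trans hij hn)
  obtain ⟨N, hN⟩ : ∃ m, nu0 (⋃ m, B m) ≤ nu0 (B m) + η := by
    by_contra hcon
    push Not at hcon
    have h1 : (⨆ m : ℕ, (nu0 (B m) + η)) ≤ nu0 (⋃ m, B m) := iSup_le fun m => (hcon m).le
    rw [← ENNReal.iSup_add, ← hBmono.measure_iUnion] at h1
    have h2 : nu0 (⋃ m, B m) + η ≤ nu0 (⋃ m, B m) + 0 := by rwa [add_zero]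
    exact absurd ((ENNReal.add_le_add_iff_left (hfin _)).1 h2) (not_le.2 hη0)
  have hE0 : nu0 E = 0 := (withDensity_absolutelyContinuous _ _) (hE.measure_zero volume)
  have hcov : (univ : Set ℂ) ⊆ ((⋃ N, B N) ∪ E) ∪ JS (sp x) := by
    intro z _
    by_cases hz : z ∈ JS (sp x)
    · exact Or.inr hz
    by_cases hzE : z ∈ E
    · exact Or.inl (Or.inr hzE)
    · obtain ⟨N, hN⟩ := eventually_atTop.1 (h z hzE hz)
      exact Or.inl (Or.inl (mem_iUnion.2 ⟨N, mem_iInter₂.2 fun n hn => hN n hn⟩))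
  filter_upwards [eventually_ge_atTop N] with n hn
  rw [sarea_eq, sarea_eq]
  have hmeas : MeasurableSet {z : ℂ | ¬ Attd (sp (X n)) (z : OnePoint ℂ)} :=
    Pool.Agent.W462.RENORM.closed_na hd (hX n)
  have hcompl : {z : ℂ | ¬ Attd (sp (X n)) (z : OnePoint ℂ)}ᶜ = A n := by
    ext z
    simp [hA]
  have hsum : nu0 {z : ℂ | ¬ Attd (sp (X n)) (z : OnePoint ℂ)} + nu0 (A n) = nu0 univ := by
    rw [← hcompl]
    exact measure_add_measure_compl hmeas
  have hBA : nu0 (B N) ≤ nu0 (A n) := by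
    apply measure_mono
    intro z hz
    exact mem_iInter₂.1 hz n hn
  have htot : nu0 univ ≤ nu0 (A n) + (nu0 (JS (sp x)) + η) := by
    calc nu0 univ ≤ nu0 (((⋃ m, B m) ∪ E) ∪ JS (sp x)) := measure_mono hcov
      _ ≤ nu0 ((⋃ m, B m) ∪ E) + nu0 (JS (sp x)) := measure_union_le _ _
      _ ≤ (nu0 (⋃ m, B m) + nu0 E) + nu0 (JS (sp x)) :=
          add_le_add (measure_union_le _ _) le_rfl
      _ = nu0 (⋃ m, B m) + nu0 (JS (sp x)) := by rw [hE0, add_zero]
      _ ≤ (nu0 (B N) + η) + nu0 (JS (sp x)) := add_le_add hN le_rfl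
      _ ≤ (nu0 (A n) + η) + nu0 (JS (sp x)) := add_le_add (add_le_add hBA le_rfl) le_rfl
      _ = nu0 (A n) + (nu0 (JS (sp x)) + η) := by ring
  rw [← hsum, add_comm] at htot
  exact (ENNReal.add_le_add_iff_left (hfin _)).1 htot

end Pool.Agent.Q90.RB
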